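import Pool.Agent.D0H44.DM.Stm

set_option autoImplicit false

/-!
# DM 2: the average over `α` (`t_AVG`)
-/

namespace Pool.Agent.D0H10.DM

open MeasureTheory Set Filter Pool.Agent.D0H44.DM

theorem ii {g : ℝ → ℝ} {K : ℝ} (hm : Measurable g) (hb : ∀ w, |g w| ≤ K) (p q : ℝ) :
    IntervalIntegrable g volume p q := by
  refine (intervalIntegrable_const (c := K)).mono_fun hm.aestronglyMeasurable ?_
  refine Eventually.of_forall fun w => ?_
  simp only [Real.norm_eq_abs]
  exact (hb w).trans (le_abs_self K)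

/-- The weight. -/
noncomputable def wt (a : ℝ) (h : ℕ) (w : ℝ) : ℝ :=
  if w / a / 2 ≤ (h : ℝ) ∧ (h : ℝ) < w / a then (1 : ℝ) / h else 0

theorem wt_iff {a : ℝ} (ha : 0 < a) (h : ℕ) (w : ℝ) :
    (w / a / 2 ≤ (h : ℝ) ∧ (h : ℝ) < w / a) ↔ w ∈ Ioc (a * h) (2 * a * h) := by
  rw [mem_Ioc, and_comm, lt_div_iff₀ ha, div_div, div_le_iff₀ (by positivity)]
  constructor
  · rintro ⟨h1, h2⟩
    exact ⟨by linarith, by linarith⟩
  · rintro ⟨h1, h2⟩
    exact ⟨by linarith, by linarith⟩

theorem wt_meas (a : ℝ) (h : ℕ) : Measurable (wt a h) := by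
  unfold wt
  refine Measurable.ite ?_ measurable_const measurable_const
  apply MeasurableSet.inter
  · exact measurableSet_le ((measurable_id.div_const a).div_const 2) measurable_const
  · exact measurableSet_lt measurable_const (measurable_id.div_const a)

theorem wt_le (a : ℝ) (h : ℕ) (w : ℝ) : |wt a h w| ≤ 1 := by
  unfold wt
  split_ifs
  · rw [abs_of_nonneg (by positivity)]
    rcases Nat.eq_zero_or_pos h with h0 | h0
    · subst h0
      simp
    · rw [div_le_one (by exact_mod_cast h0)]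
      exact_mod_cast h0
  · simp

theorem tsum_eq {G : ℝ → ℝ} {X α a : ℝ} (ha : 0 < a) (hα : a ≤ α)
    (hev : ∀ w, G (-w) = G w) (h0 : ∀ w, X < |w| → G w = 0) (N : ℕ) (hN : X / a < N + 1) :
    ∑' h : ℤ, G (α * h) = G 0 + 2 * ∑ h ∈ Finset.Icc 1 N, G (h * α) := by
  have hα0 : 0 < α := ha.trans_le hα
  have hz : ∀ n : ℕ, N < n → G (n * α) = 0 := by
    intro n hn
    apply h0
    rw [abs_of_nonneg (by positivity)]
    have h1 : (N : ℝ) + 1 ≤ n := by exact_mod_cast hn
    rw [div_lt_iff₀ ha] at hN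
    calc X < (N + 1) * a := hN
      _ ≤ n * α := mul_le_mul h1 hα ha.le (by positivity)
  have hs1 : Summable fun n : ℕ => G (α * ((n : ℤ) : ℝ)) := by
    refine summable_of_ne_finset_zero (s := Finset.range (N + 1)) fun n hn => ?_
    rw [Finset.mem_range, not_lt] at hn
    have := hz n (by omega)
    rw [mul_comm] at this
    rw [Int.cast_natCast]
    exact this
  have hs2 : Summable fun n : ℕ => G (α * ((-((n : ℤ) + 1) : ℤ) : ℝ)) := by
    refine summable_of_ne_finset_zero (s := Finset.range (N + 1)) fun n hn => ?_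
    rw [Finset.mem_range, not_lt] at hn
    have := hz (n + 1) (by omega)
    rw [mul_comm] at this
    push_cast at this ⊢
    rw [mul_neg, hev]
    exact this
  have e1 : ∀ n : ℕ, G (α * ((-((n : ℤ) + 1) : ℤ) : ℝ)) = G (((n + 1 : ℕ) : ℝ) * α) := by
    intro n
    push_cast
    rw [mul_neg, hev, mul_comm]
  have e2 : ∀ n : ℕ, G (α * ((n : ℤ) : ℝ)) = G ((n : ℝ) * α) := by
    intro n
    rw [Int.cast_natCast, mul_comm]
  rw [tsum_of_nat_of_neg_add_one hs1 hs2]
  simp only [e1, e2] at hs1 hs2 ⊢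
  rw [hs1.tsum_eq_zero_add]
  have e3 : ∑' n : ℕ, G (((n + 1 : ℕ) : ℝ) * α) = ∑ h ∈ Finset.Icc 1 N, G (h * α) := by
    rw [tsum_eq_sum (s := Finset.range N)]
    · rw [Finset.range_eq_Ico, Finset.sum_Ico_add' (fun h : ℕ => G ((h : ℝ) * α)) 0 N 1]
      congr 1
    · intro n hn
      rw [Finset.mem_range, not_lt] at hn
      exact hz (n + 1) (by omega)
  rw [e3]
  simp only [Nat.cast_zero, zero_mul]
  ring

theorem part {G : ℝ → ℝ} {X a : ℝ} (ha : 0 < a) (h0 : ∀ w, X < |w| → G w = 0) (hX : 0 ≤ X)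
    {h : ℕ} (hh : 1 ≤ h) :
    ∫ α in a..(2 * a), G (h * α) = ∫ w in (0 : ℝ)..X, G w * wt a h w := by
  have hh0 : (0 : ℝ) < h := by exact_mod_cast hh
  rw [intervalIntegral.integral_comp_mul_left G hh0.ne', smul_eq_mul,
    intervalIntegral.integral_of_le (by nlinarith), intervalIntegral.integral_of_le hX]
  have e1 : ∫ w in Ioc (0 : ℝ) X, G w * wt a h w = ∫ w, G w * wt a h w := by
    apply setIntegral_eq_integral_of_forall_compl_eq_zero
    intro w hw
    by_cases hc : w / a / 2 ≤ (h : ℝ) ∧ (h : ℝ) < w / a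
    · have h1 := (wt_iff ha h w).1 hc
      have h2 : 0 < w := (mul_pos ha hh0).trans h1.1
      have h3 : X < w := by
        by_contra h4
        exact hw ⟨h2, not_lt.1 h4⟩
      rw [h0 w (h3.trans_le (le_abs_self w)), zero_mul]
    · unfold wt
      rw [if_neg hc, mul_zero]
  rw [e1, ← integral_const_mul, ← integral_indicator measurableSet_Ioc]
  congr 1
  funext w
  by_cases hc : w ∈ Ioc (a * (h : ℝ)) (2 * a * h)
  · have hc' : w ∈ Ioc ((h : ℝ) * a) (h * (2 * a)) := by
      rw [mul_comm (h : ℝ) a, mul_comm (h : ℝ) (2 * a)]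
      exact hc
    rw [indicator_of_mem hc']
    unfold wt
    rw [if_pos ((wt_iff ha h w).2 hc)]
    rw [one_div]
    ring
  · have hc' : w ∉ Ioc ((h : ℝ) * a) (h * (2 * a)) := by
      rw [mul_comm (h : ℝ) a, mul_comm (h : ℝ) (2 * a)]
      exact hc
    rw [indicator_of_notMem hc']
    unfold wt
    rw [if_neg (fun hq => hc ((wt_iff ha h w).1 hq)), mul_zero]

theorem total {G : ℝ → ℝ} {X : ℝ} (hX : 0 ≤ X) (hev : ∀ w, G (-w) = G w)
    (h0 : ∀ w, X < |w| → G w = 0) : ∫ w, G w = 2 * ∫ w in (0 : ℝ)..X, G w := by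
  have e1 : ∫ w, G w = ∫ w, G |w| := by
    congr 1
    funext w
    rcases abs_choice w with h | h
    · rw [h]
    · rw [h, hev]
  rw [e1, integral_comp_abs (f := G), intervalIntegral.integral_of_le hX]
  congr 1
  apply setIntegral_eq_of_subset_of_forall_sdiff_eq_zero measurableSet_Ioi
    (fun w hw => hw.1)
  intro w hw
  apply h0
  by_contra h
  apply hw.2
  refine ⟨hw.1, ?_⟩
  rw [abs_of_pos hw.1] at h
  exact not_lt.1 h

theorem bd (hHS : S_HS) {a X w : ℝ} (ha : 0 < a) (hw : 0 < w) (hwX : w ≤ X) (N : ℕ)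
    (hN : ⌈X / a⌉₊ ≤ N) :
    |(∑ h ∈ Finset.Icc 1 N, wt a h w) - Real.log 2| ≤ 4 * a / (w + a) := by
  have hy : 0 < w / a := div_pos hw ha
  have hsum : ∑ h ∈ Finset.Icc 1 N, wt a h w = ∑ h ∈ Finset.Icc 1 ⌈w / a⌉₊, wt a h w := by
    symm
    apply Finset.sum_subset
    · apply Finset.Icc_subset_Icc_right
      exact (Nat.ceil_mono (div_le_div_of_nonneg_right hwX ha.le)).trans hN
    · intro h hh hh'
      unfold wt
      rw [if_neg]
      rintro ⟨-, h2⟩
      apply hh'
      rw [Finset.mem_Icc] at hh ⊢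
      refine ⟨hh.1, ?_⟩
      have : (h : ℝ) ≤ ⌈w / a⌉₊ := h2.le.trans (Nat.le_ceil _)
      exact_mod_cast this
  have h1 := hHS (w / a) hy
  rw [hsum]
  have h2 : |(∑ h ∈ Finset.Icc 1 ⌈w / a⌉₊, wt a h w) - Real.log 2| ≤ 2 / (w / a) := h1
  rcases le_or_gt w a with hwa | hwa
  · have h3 : ∑ h ∈ Finset.Icc 1 ⌈w / a⌉₊, wt a h w = 0 := by
      apply Finset.sum_eq_zero
      intro h hh
      unfold wt
      rw [if_neg]
      rintro ⟨-, h4⟩
      have h5 : w / a ≤ 1 := (div_le_one ha).2 hwa
      have h6 : (1 : ℝ) ≤ h := by exact_mod_cast (Finset.mem_Icc.1 hh).1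
      linarith
    rw [h3, zero_sub, abs_neg, abs_of_pos (Real.log_pos one_lt_two)]
    have h4 : (1 : ℝ) ≤ 4 * a / (w + a) := by
      rw [le_div_iff₀ (by positivity)]
      linarith
    have := Real.log_two_lt_d9
    linarith
  · refine h2.trans ?_
    have h4 : 2 / (w / a) = 2 * a / w := by
      field_simp
    rw [h4, div_le_div_iff₀ hw (by positivity)]
    nlinarith

theorem t_AVG (hHS : S_HS) : S_AVG := by
  intro a ha
  refine ⟨a + 8 * a * (1 + |Real.log (1 + a) - Real.log a|), by positivity, ?_⟩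
  intro G X K hX hm hG0 hGK hev h0
  have hX0 : 0 ≤ X := by linarith
  have hK : 0 ≤ K := (hG0 0).trans (hGK 0)
  have ha2 : a ≤ 2 * a := by linarith
  set N : ℕ := ⌈X / a⌉₊ with hN
  have hN1 : X / a < (N : ℝ) + 1 := by
    have := Nat.le_ceil (X / a)
    linarith
  have hGb : ∀ w, |G w| ≤ K := fun w => by
    rw [abs_of_nonneg (hG0 w)]
    exact hGK w
  have hii : ∀ h : ℕ, IntervalIntegrable (fun α : ℝ => G (h * α)) volume a (2 * a) := by
    intro h
    exact ii (K := K) (hm.comp (measurable_const_mul _)) (fun w => hGb _) _ _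
  have hinv : IntervalIntegrable (fun α : ℝ => (∫ w, G w) / α) volume a (2 * a) := by
    apply ContinuousOn.intervalIntegrable
    rw [uIcc_of_le ha2]
    apply ContinuousOn.div continuousOn_const continuousOn_id
    intro x hx
    exact (ha.trans_le hx.1).ne'
  have hsumI : IntervalIntegrable (fun α : ℝ => ∑ h ∈ Finset.Icc 1 N, G (h * α))
      volume a (2 * a) := by
    have e : (fun α : ℝ => ∑ h ∈ Finset.Icc 1 N, G (h * α)) =
        ∑ h ∈ Finset.Icc 1 N, fun α : ℝ => G (h * α) := by
      funext α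
      rw [Finset.sum_apply]
    rw [e]
    exact IntervalIntegrable.sum _ fun h _ => hii h
  have heq : ∀ α ∈ uIcc a (2 * a), (∑' h : ℤ, G (α * h)) - (∫ w, G w) / α =
      (G 0 + 2 * ∑ h ∈ Finset.Icc 1 N, G (h * α)) - (∫ w, G w) / α := by
    intro α hα
    rw [uIcc_of_le ha2] at hα
    rw [tsum_eq ha hα.1 hev h0 N hN1]
  have hF : IntervalIntegrable (fun α : ℝ => (G 0 + 2 * ∑ h ∈ Finset.Icc 1 N, G (h * α)) -
      (∫ w, G w) / α) volume a (2 * a) :=
    (intervalIntegrable_const.add (hsumI.const_mul 2)).sub hinv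
  refine ⟨?_, ?_⟩
  · refine hF.congr fun α hα => ?_
    exact (heq α (uIoc_subset_uIcc hα)).symm
  · rw [intervalIntegral.integral_congr heq, intervalIntegral.integral_sub
      (intervalIntegrable_const.add (hsumI.const_mul 2)) hinv,
      intervalIntegral.integral_add intervalIntegrable_const (hsumI.const_mul 2),
      intervalIntegral.integral_const, intervalIntegral.integral_const_mul,
      intervalIntegral.integral_finsetSum fun h _ => hii h]
    have e1 : ∫ α in a..(2 * a), (∫ w, G w) / α = (∫ w, G w) * Real.log 2 := by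
      simp only [div_eq_mul_inv]
      rw [intervalIntegral.integral_const_mul, integral_inv_of_pos ha (by linarith)]
      congr 2
      field_simp
    have e2 : ∑ h ∈ Finset.Icc 1 N, ∫ α in a..(2 * a), G (h * α) =
        ∫ w in (0 : ℝ)..X, G w * ∑ h ∈ Finset.Icc 1 N, wt a h w := by
      simp only [Finset.mul_sum]
      rw [intervalIntegral.integral_finsetSum]
      · refine Finset.sum_congr rfl fun h hh => ?_
        exact part ha h0 hX0 (Finset.mem_Icc.1 hh).1
      · intro h _
        refine ii (K := K * 1) (hm.mul (wt_meas a h)) (fun w => ?_) _ _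
        change |G w * wt a h w| ≤ K * 1
        rw [abs_mul]
        exact mul_le_mul (hGb w) (wt_le a h w) (abs_nonneg _) hK
    rw [e1, e2, total hX0 hev h0]
    have hwi : IntervalIntegrable (fun w => G w * ∑ h ∈ Finset.Icc 1 N, wt a h w)
        volume 0 X := by
      refine ii (K := K * N) (hm.mul (Finset.measurable_sum _ fun h _ => wt_meas a h))
        (fun w => ?_) _ _
      change |G w * ∑ h ∈ Finset.Icc 1 N, wt a h w| ≤ K * N
      rw [abs_mul]
      refine mul_le_mul (hGb w) ?_ (abs_nonneg _) hK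
      refine (Finset.abs_sum_le_sum_abs _ _).trans ?_
      refine (Finset.sum_le_sum fun h _ => wt_le a h w).trans ?_
      simp
    have hGi : IntervalIntegrable G volume 0 X := ii hm hGb _ _
    have e3 : 2 * (∫ w in (0 : ℝ)..X, G w * ∑ h ∈ Finset.Icc 1 N, wt a h w) -
        2 * (∫ w in (0 : ℝ)..X, G w) * Real.log 2 =
        2 * ∫ w in (0 : ℝ)..X, G w * ((∑ h ∈ Finset.Icc 1 N, wt a h w) - Real.log 2) := by
      have : ∫ w in (0 : ℝ)..X, G w * ((∑ h ∈ Finset.Icc 1 N, wt a h w) - Real.log 2) =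
          (∫ w in (0 : ℝ)..X, G w * ∑ h ∈ Finset.Icc 1 N, wt a h w) -
            ∫ w in (0 : ℝ)..X, G w * Real.log 2 := by
        rw [← intervalIntegral.integral_sub hwi (hGi.mul_const _)]
        refine intervalIntegral.integral_congr fun w _ => ?_
        ring
      rw [this, intervalIntegral.integral_mul_const]
      ring
    have hmi : IntervalIntegrable (fun w : ℝ => K * (4 * a / (w + a))) volume 0 X := by
      apply ContinuousOn.intervalIntegrable
      rw [uIcc_of_le hX0]
      apply ContinuousOn.mul continuousOn_const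
      apply ContinuousOn.div continuousOn_const (by fun_prop)
      intro x hx
      have := hx.1
      positivity
    have e4 : ∫ w in (0 : ℝ)..X, G w * ((∑ h ∈ Finset.Icc 1 N, wt a h w) - Real.log 2) ≤
        ∫ w in (0 : ℝ)..X, K * (4 * a / (w + a)) := by
      apply intervalIntegral.integral_mono_on_of_le_Ioo hX0
      · have := hwi.sub (hGi.mul_const (Real.log 2))
        refine this.congr fun w _ => ?_
        ring
      · exact hmi
      · intro w hw
        have h1 := bd hHS ha hw.1 hw.2.le N le_rfl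
        calc G w * ((∑ h ∈ Finset.Icc 1 N, wt a h w) - Real.log 2)
            ≤ |G w * ((∑ h ∈ Finset.Icc 1 N, wt a h w) - Real.log 2)| := le_abs_self _
          _ ≤ K * (4 * a / (w + a)) := by
            rw [abs_mul]
            exact mul_le_mul (hGb w) h1 (abs_nonneg _) hK
    have e5 : ∫ w in (0 : ℝ)..X, K * (4 * a / (w + a)) =
        K * (4 * a * (Real.log (X + a) - Real.log a)) := by
      rw [intervalIntegral.integral_const_mul]
      congr 1
      have h1 : ∀ w : ℝ, 4 * a / (w + a) = 4 * a * (w + a)⁻¹ := fun w => div_eq_mul_inv _ _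
      simp only [h1]
      rw [intervalIntegral.integral_const_mul,
        intervalIntegral.integral_comp_add_right (fun w : ℝ => w⁻¹) a, zero_add,
        integral_inv_of_pos ha (by linarith), Real.log_div (by positivity) ha.ne']
    have e6 : Real.log (X + a) ≤ Real.log X + Real.log (1 + a) := by
      rw [← Real.log_mul (by positivity) (by positivity)]
      apply Real.log_le_log (by positivity)
      nlinarith
    have hlX : 0 ≤ Real.log X := Real.log_nonneg hX
    have e7 : Real.log (1 + a) - Real.log a ≤ |Real.log (1 + a) - Real.log a| := le_abs_self _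
    have hG0K := hGK 0
    have e8 : (2 * a - a) • G 0 ≤ a * K := by
      rw [smul_eq_mul]
      have : 2 * a - a = a := by ring
      rw [this]
      exact mul_le_mul_of_nonneg_left hG0K ha.le
    set L := |Real.log (1 + a) - Real.log a| with hL
    have hL0 : 0 ≤ L := abs_nonneg _
    have e9 : K * (4 * a * (Real.log (X + a) - Real.log a)) ≤ K * (4 * a * (Real.log X + L)) := by
      apply mul_le_mul_of_nonneg_left _ hK
      apply mul_le_mul_of_nonneg_left _ (by positivity)
      linarith
    have e10 : (2 * a - a) • G 0 + 2 * (∫ w in (0 : ℝ)..X, G w * ∑ h ∈ Finset.Icc 1 N, wt a h w) -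
        2 * (∫ w in (0 : ℝ)..X, G w) * Real.log 2 ≤
        a * K + 2 * (K * (4 * a * (Real.log X + L))) := by
      linarith
    refine e10.trans ?_
    have e11 : 0 ≤ K * a := by positivity
    have e12 : 0 ≤ K * a * Real.log X := by positivity
    have e13 : 0 ≤ K * a * L := by positivity
    have e14 : 0 ≤ K * a * L * Real.log X := by positivity
    nlinarith

end Pool.Agent.D0H10.DM
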